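import Pool.Agent.H582AR.Prob
import Pool.Agent.V11323.Heavy

/-!
# The free group of rank two is not algebraically recurrent

The walk is a lift of the heavy-tailed walk on the wreath product `W` of two infinite cyclic groups
constructed in `Pool.Agent.H582AR`, which eventually stays in a proper subsemigroup of `W`.
-/

set_option autoImplicit false

open MeasureTheory

namespace Pool.Agent.Results.MP_3ace2b_pr.FreeGroupTwoNotAR

/-- The walk `X_m = ζ_1 ζ_2 ... ζ_m` with steps `ζ_{l+1} = ω l`. -/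
def walk {G : Type} [Group G] (ω : ℕ → G) (m : ℕ) : G := ((List.range m).map ω).prod

/-- `S_n`: the subsemigroup generated by `X_n, X_{n+1}, ...`. -/
def tail {G : Type} [Group G] (ω : ℕ → G) (n : ℕ) : Subsemigroup G :=
  Subsemigroup.closure {g | ∃ m, n ≤ m ∧ g = walk ω m}

/-- The pair `(G, μ)` is algebraically recurrent: for every `n ≥ 1`, almost surely `S_n = G`,
where the steps are independent with law `μ`. -/
def PairAR {G : Type} [Group G] (μ : PMF G) : Prop :=
  let _ : MeasurableSpace G := ⊤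
  ∀ n : ℕ, 1 ≤ n → ∀ᵐ ω ∂(Measure.infinitePi (fun _ : ℕ => μ.toMeasure)), tail ω n = ⊤

/-- The group `G` is algebraically recurrent: `(G, μ)` is, for every symmetric probability measure
`μ` on `G` whose support generates `G` as a group. -/
def GroupAR (G : Type) [Group G] : Prop :=
  ∀ μ : PMF G, (∀ g : G, μ g⁻¹ = μ g) → Subgroup.closure μ.support = ⊤ → PairAR μ

section Helpers

open Pool.Agent.H582AR

/-- the projection of the free group onto the wreath product -/
noncomputable def φ : FreeGroup (Fin 2) →* W := FreeGroup.lift ![W.t, W.a]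

theorem φ_surj : Function.Surjective φ := by
  rw [← MonoidHom.range_eq_top]
  apply closure_ta
  · exact ⟨FreeGroup.of 0, by simp [φ]⟩
  · exact ⟨FreeGroup.of 1, by simp [φ]⟩

theorem exists_lift : ∃ s : ℕ → FreeGroup (Fin 2), (∀ i, φ (s i) = gg i) ∧
    s 0 = FreeGroup.of 0 ∧ s 1 = FreeGroup.of 1 := by
  choose t ht using fun i => φ_surj (gg i)
  refine ⟨fun i => if i = 0 then FreeGroup.of 0 else if i = 1 then FreeGroup.of 1 else t i,
    ?_, by simp, by simp⟩
  intro i
  by_cases h0 : i = 0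
  · subst h0; simp [φ, gg_zero]
  · by_cases h1 : i = 1
    · subst h1; simp [φ, gg_one]
    · simp only [h0, h1, if_false]; exact ht i

theorem gg_ne_inv (i : ℕ) : gg i ≠ (gg i)⁻¹ := by
  intro h
  by_cases h0 : i = 0
  · subst h0
    have h1 := congrArg W.s h
    rw [gg_zero, W.inv_s] at h1
    simp [W.t] at h1
  · have h1 : ev 2 two_ne_zero (gg i).F = ev 2 two_ne_zero ((gg i)⁻¹).F := by rw [← h]
    rw [gg_inv_F, map_neg, gg_F, ev_two] at h1
    have h2 : sz i = 0 := by linarith
    have h3 : sz 0 = 0 := by simp [sz]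
    exact h0 (sz_inj (h2.trans h3.symm))

theorem map_unif (s : ℕ → FreeGroup (Fin 2)) (hs : ∀ i, φ (s i) = gg i) (i : ℕ) :
    PMF.map φ (PMF.uniformOfFinset (Pool.Agent.V11323.F s i) (Pool.Agent.V11323.F_nonempty s i)) =
      PMF.uniformOfFinset (F i) (F_nonempty i) := by
  classical
  have hinv : φ (s i)⁻¹ = (gg i)⁻¹ := by rw [map_inv, hs]
  have hne : s i ≠ (s i)⁻¹ := by
    intro h
    apply gg_ne_inv i
    rw [← hinv, ← h, hs]
  have e1 : Pool.Agent.V11323.F s i = {s i, (s i)⁻¹} := by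
    ext g; rw [Pool.Agent.V11323.mem_F]; simp
  have e2 : F i = {gg i, (gg i)⁻¹} := by
    ext g; rw [mem_F]; simp
  have c1 : (Pool.Agent.V11323.F s i).card = 2 := by
    rw [e1]; exact Finset.card_pair hne
  have c2 : (F i).card = 2 := by
    rw [e2]; exact Finset.card_pair (gg_ne_inv i)
  ext b
  rw [PMF.map_apply, PMF.uniformOfFinset_apply, c2]
  rw [tsum_eq_sum (s := Pool.Agent.V11323.F s i)]
  · rw [Finset.sum_congr e1 (fun _ _ => rfl), Finset.sum_pair hne]
    have m1 : s i ∈ Pool.Agent.V11323.F s i := by rw [Pool.Agent.V11323.mem_F]; left; rfl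
    have m2 : (s i)⁻¹ ∈ Pool.Agent.V11323.F s i := by rw [Pool.Agent.V11323.mem_F]; right; rfl
    simp only [PMF.uniformOfFinset_apply, m1, m2, if_true, c1, hs, hinv, e2]
    by_cases hb1 : b = gg i
    · subst hb1
      simp [gg_ne_inv i]
    · by_cases hb2 : b = (gg i)⁻¹
      · subst hb2
        simp [(gg_ne_inv i).symm]
      · simp [hb1, hb2]
  · intro g hg
    rw [PMF.uniformOfFinset_apply, if_neg hg]
    simp

theorem map_nu (s : ℕ → FreeGroup (Fin 2)) (hs : ∀ i, φ (s i) = gg i) :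
    PMF.map φ (Pool.Agent.V11323.nu s) = nu := by
  unfold Pool.Agent.V11323.nu nu
  rw [PMF.map_bind]
  congr 1
  funext i
  exact map_unif s hs i

theorem φ_walk (ω : ℕ → FreeGroup (Fin 2)) (m : ℕ) :
    φ (walk ω m) = X (fun l => φ (ω l)) m := by
  unfold walk X
  rw [map_list_prod, List.map_map]
  rfl

theorem tail_ne (ω : ℕ → FreeGroup (Fin 2)) (n : ℕ) (P : Subsemigroup W) (hP : (1 : W) ∉ P)
    (h : ∀ k, n ≤ k → X (fun l => φ (ω l)) k ∈ P) : tail ω n ≠ ⊤ := by
  intro htop
  have hle : tail ω n ≤ P.comap φ.toMulHom := by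
    unfold tail
    rw [Subsemigroup.closure_le]
    rintro _ ⟨m, hm, rfl⟩
    have h1 := h m hm
    rw [← φ_walk] at h1
    exact h1
  have h4 : (1 : FreeGroup (Fin 2)) ∈ P.comap φ.toMulHom := by
    apply hle
    rw [htop]
    exact Subsemigroup.mem_top 1
  rw [Subsemigroup.mem_comap] at h4
  apply hP
  have h5 : φ.toMulHom 1 = 1 := map_one φ
  rwa [h5] at h4

end Helpers

/-- The free group of rank two is not algebraically recurrent. -/
theorem result : ¬ GroupAR (FreeGroup (Fin 2)) := by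
  intro hAR
  obtain ⟨s, hs, hs0, hs1⟩ := exists_lift
  have hgen : Subgroup.closure (Pool.Agent.V11323.nu s).support = ⊤ := by
    apply Pool.Agent.V11323.nu_closure
    rw [eq_top_iff, ← FreeGroup.closure_range_of (Fin 2), Subgroup.closure_le]
    rintro _ ⟨i, rfl⟩
    apply Subgroup.subset_closure
    fin_cases i
    · exact ⟨0, hs0⟩
    · exact ⟨1, hs1⟩
  have hAR2 := hAR (Pool.Agent.V11323.nu s) (Pool.Agent.V11323.nu_symm s) hgen
  let _ : MeasurableSpace (FreeGroup (Fin 2)) := ⊤
  have hd : DiscreteMeasurableSpace (FreeGroup (Fin 2)) := ⟨fun _ => trivial⟩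
  let _ : MeasurableSpace Pool.Agent.H582AR.W := ⊤
  have hd' : DiscreteMeasurableSpace Pool.Agent.H582AR.W := ⟨fun _ => trivial⟩
  have hmap : (Measure.infinitePi
      (fun _ : ℕ => (Pool.Agent.V11323.nu s).toMeasure)).map (fun ω l => φ (ω l)) =
      Measure.infinitePi (fun _ : ℕ => Pool.Agent.H582AR.nu.toMeasure) := by
    rw [Measure.infinitePi_map_pi _ (fun _ => measurable_from_top)]
    congr 1
    funext _
    rw [← map_nu s hs, PMF.toMeasure_map φ (Pool.Agent.V11323.nu s) measurable_from_top]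
  have h1 := Pool.Agent.H582AR.nu_strong
  rw [← hmap] at h1
  have hmeas : Measurable (fun (ω : ℕ → FreeGroup (Fin 2)) (l : ℕ) => φ (ω l)) := by
    rw [measurable_pi_iff]
    intro l
    exact measurable_from_top.comp (measurable_pi_apply l)
  have h2 := ae_of_ae_map hmeas.aemeasurable h1
  have h3 : ∀ᵐ ω ∂(Measure.infinitePi (fun _ : ℕ => (Pool.Agent.V11323.nu s).toMeasure)),
      ∃ n : ℕ, 1 ≤ n ∧ tail ω n ≠ ⊤ := by
    filter_upwards [h2] with ω hω
    obtain ⟨n, hn, z, hz, hz0, h⟩ := hω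
    exact ⟨n, hn, tail_ne ω n _ (Pool.Agent.H582AR.one_notMem_Pz z hz hz0) h⟩
  have h5 : ∀ᵐ ω ∂(Measure.infinitePi (fun _ : ℕ => (Pool.Agent.V11323.nu s).toMeasure)),
      ∀ n : ℕ, 1 ≤ n → tail ω n = ⊤ := by
    rw [ae_all_iff]
    intro n
    by_cases hn : 1 ≤ n
    · filter_upwards [hAR2 n hn] with ω hω _ using hω
    · exact Filter.Eventually.of_forall fun ω hn' => absurd hn' hn
  have h8 : ∀ᵐ ω ∂(Measure.infinitePi (fun _ : ℕ => (Pool.Agent.V11323.nu s).toMeasure)),
      False := by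
    filter_upwards [h3, h5] with ω hω1 hω2
    obtain ⟨n, hn, hω3⟩ := hω1
    exact hω3 (hω2 n hn)
  rw [ae_iff] at h8
  simp at h8

end Pool.Agent.Results.MP_3ace2b_pr.FreeGroupTwoNotAR
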